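import Pool.Agent.Q54.EM.StmE

/-!
# Project EM (helper54), job W1N: numerical part of the zone `0.8 k < l < k`
-/

set_option autoImplicit false

namespace Pool.Agent.Q102.EM

open Q54.EM

/-- the bound for `A` -/
theorem w1n_A {b ms A t : ℝ} (b0 : 0 ≤ b) (b1 : b ≤ 20456 / 100000) (m0 : 0 < ms)
    (m1 : ms ≤ 1301 / 1000 * t) (t1 : t ≤ 2 / 10) (A0 : 0 ≤ A)
    (h : A * ((1 - b) * (1 - 2 * b)) ≤ ms ^ 3) : A ≤ 375 / 10000 := by
  have h1 : ms ≤ 2602 / 10000 := by linarith
  have h2 : ms ^ 3 ≤ (2602 / 10000 : ℝ) ^ 3 := pow_le_pow_left₀ m0.le h1 3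
  have h3 : (47 / 100 : ℝ) ≤ (1 - b) * (1 - 2 * b) := by nlinarith
  have h4 : A * (47 / 100) ≤ A * ((1 - b) * (1 - 2 * b)) := mul_le_mul_of_nonneg_left h3 A0
  norm_num at h2
  linarith

/-- powers of `1 - pp` -/
theorem w1n_pow {k : ℕ} {a u pp T : ℝ} (hk : 6 ≤ k) (a0 : 0 < a) (a1 : a < 1) (hT : (1 - a) ^ k = T)
    (hpp : 1 - pp = (1 - a) * (1 + u / (k * (1 - a)))) (u0 : 0 ≤ u) (T0 : 0 < T)
    (hu : u / (1 - a) ≤ 1028 / 10000) :
    (1 - pp) ^ (k - 1) * (1 - a) ≤ 1115 / 1000 * T := by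
  have hkR : (6 : ℝ) ≤ k := by exact_mod_cast hk
  have ha : 0 < 1 - a := by linarith
  set v := u / (k * (1 - a)) with hv
  have v0 : 0 ≤ v := by positivity
  have hvk : (k : ℝ) * v = u / (1 - a) := by
    rw [hv]; field_simp
  have hk1 : k = (k - 1) + 1 := by omega
  have e1 : (1 - a) ^ (k - 1) * (1 - a) = T := by
    rw [← pow_succ, ← hk1, hT]
  have e2 : (1 + v) ^ (k - 1) ≤ 1115 / 1000 := by
    have h1 : (1 + v) ^ (k - 1) ≤ (1 + v) ^ k := pow_le_pow_right₀ (by linarith) (by omega)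
    have h2 : (1 + v) ^ k ≤ Real.exp (k * v) := by
      rw [mul_comm, Real.exp_mul, Real.rpow_natCast]
      exact pow_le_pow_left₀ (by linarith) (by linarith [Real.add_one_le_exp v]) k
    have h3 : Real.exp (k * v) ≤ 1115 / 1000 := by
      rw [hvk]
      have h4 := Real.add_one_le_exp (-(u / (1 - a)))
      have h5 : Real.exp (u / (1 - a)) * Real.exp (-(u / (1 - a))) = 1 := by
        rw [← Real.exp_add]; simp
      have h6 : 0 < Real.exp (u / (1 - a)) := Real.exp_pos _
      have h7 : Real.exp (u / (1 - a)) * (8972 / 10000) ≤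
          Real.exp (u / (1 - a)) * Real.exp (-(u / (1 - a))) :=
        mul_le_mul_of_nonneg_left (by linarith) h6.le
      linarith
    linarith
  rw [hpp, mul_pow]
  calc (1 - a) ^ (k - 1) * (1 + v) ^ (k - 1) * (1 - a)
      = ((1 - a) ^ (k - 1) * (1 - a)) * (1 + v) ^ (k - 1) := by ring
    _ = T * (1 + v) ^ (k - 1) := by rw [e1]
    _ ≤ T * (1115 / 1000) := mul_le_mul_of_nonneg_left e2 T0.le
    _ = 1115 / 1000 * T := by ring

theorem w1n_low {k : ℕ} {a u pp T : ℝ} (hk : 6 ≤ k) (a0 : 0 < a) (a1 : a < 1) (hT : (1 - a) ^ k = T)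
    (hpp : 1 - pp = (1 - a) * (1 + u / (k * (1 - a)))) (u0 : 0 ≤ u) (T0 : 0 < T) :
    T + T * (u / (1 - a)) ≤ (1 - pp) ^ k := by
  have hkR : (6 : ℝ) ≤ k := by exact_mod_cast hk
  have ha : 0 < 1 - a := by linarith
  set v := u / (k * (1 - a)) with hv
  have v0 : 0 ≤ v := by positivity
  have hvk : (k : ℝ) * v = u / (1 - a) := by
    rw [hv]; field_simp
  have h1 : 1 + (k : ℝ) * v ≤ (1 + v) ^ k := one_add_mul_le_pow (by linarith) k
  rw [hpp, mul_pow, hT]
  calc T + T * (u / (1 - a)) = T * (1 + k * v) := by rw [hvk]; ring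
    _ ≤ T * (1 + v) ^ k := mul_le_mul_of_nonneg_left h1 T0.le

/-- final contradiction -/
theorem w1n_fin {r t u dl G A ms s b P1 TX c : ℝ} (hr : 8172 / 10000 ≤ r - u) (hr1 : r - u ≤ 1)
    (u0 : 0 ≤ u) (t0 : 0 < t) (t1 : t ≤ 2 / 10) (dl0 : 0 ≤ dl) (dl1 : dl ≤ 1402 / 10000) (G0 : 0 ≤ G)
    (m0 : 0 < ms) (m1 : ms ≤ 2602 / 10000) (b1 : b ≤ 20456 / 100000)
    (ts : t ≤ s) (sd : s ≤ t + dl) (A0 : 0 < A) (P10 : 0 ≤ P1) (hms : ms ≤ t + dl + u)
    (hPu : P1 * u ≤ 16 / 10 * TX) (hPG : P1 ≤ 16 / 10 * (r - u) * G) (hA : TX + (r - u) * dl * G < A)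
    (hmain : s * P1 - ms * P1 + c ≤ s * (G * (s - t))) (hc : (1 - b - s) * A = c * ms) : False := by
  have h1 : (ms - s) * P1 ≤ (t + dl - s) * P1 + P1 * u := by
    have : (ms - s) * P1 ≤ (t + dl + u - s) * P1 := mul_le_mul_of_nonneg_right (by linarith) P10
    linarith
  have h2 : (t + dl - s) * P1 ≤ (t + dl - s) * (16 / 10 * (r - u) * G) :=
    mul_le_mul_of_nonneg_left hPG (by linarith)
  have h3 : s * (G * (s - t)) ≤ 16 / 10 * (r - u) * (G * (s - t)) :=
    mul_le_mul_of_nonneg_right (by linarith) (mul_nonneg G0 (by linarith))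
  have h4 : c ≤ 16 / 10 * (TX + (r - u) * dl * G) := by linarith
  have h5 : c < 16 / 10 * A := by linarith
  have h6 : (1 - b - s) * A < 16 / 10 * A * ms := by
    rw [hc]; exact mul_lt_mul_of_pos_right h5 m0
  have h7 : (0.455 : ℝ) * A ≤ (1 - b - s) * A := mul_le_mul_of_nonneg_right (by linarith) A0.le
  have h8 : 16 / 10 * A * ms ≤ 16 / 10 * A * (2602 / 10000) :=
    mul_le_mul_of_nonneg_left m1 (by positivity)
  linarith

theorem w1n : S_W1N := by
  intro k r t q a b pp u dl w1 W A ms s hk ha a0 a1 r0 r1 T0 T1 hT t0 t1 hq q1 hb hpp u0 ur dl0 hW W0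
    WT hWe hms hms1 A0 hA ts sd hmain
  have hkR : (6 : ℝ) ≤ k := by exact_mod_cast hk
  have hk0 : (0 : ℝ) < k := by linarith
  set T := 1 - r ^ k with hTd
  have ha1 : a < 1 := by linarith
  have ha' : 0 < 1 - a := by linarith
  have hT0 : 0 < T := by linarith
  have hmse : ms = (r - u) * (t + dl) + u := by rw [hms]; ring
  have ru : 0 ≤ r - u := by linarith
  have m0 : 0 < ms := by
    rw [hmse]
    rcases eq_or_lt_of_le u0 with h | h
    · rw [← h]
      have : 0 < (r - 0) * (t + dl) := mul_pos (by linarith) (by linarith)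
      linarith
    · have : 0 ≤ (r - u) * (t + dl) := mul_nonneg ru (by linarith)
      linarith
  have m1 : ms ≤ 2602 / 10000 := by linarith
  have b1 : b ≤ 20456 / 100000 := by linarith
  have A1 : A ≤ 375 / 10000 := w1n_A (by linarith) b1 m0 hms1 t1 A0 hA
  have hpp' : 1 - pp = (1 - a) * (1 + u / (k * (1 - a))) := by
    have e1 : pp = (r - u) / k := by rw [← hpp]; field_simp
    have e2 : (1 - a) * (u / (k * (1 - a))) = u / k := by
      have : (1 - a : ℝ) ≠ 0 := ha'.ne'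
      field_simp
    rw [mul_add, mul_one, e2, e1, ha]
    ring
  have hlow := w1n_low hk a0 ha1 hT hpp' u0 hT0
  have q0 : 0 < q := by
    have h1 : 0 < 1 - t := by linarith
    by_contra h
    have h2 : q * (1 - t) ≤ 0 := mul_nonpos_of_nonpos_of_nonneg (by linarith) h1.le
    linarith
  have w10 : 0 < w1 := by
    by_contra h
    have h2 : w1 * (1 - q) ≤ 0 := mul_nonpos_of_nonpos_of_nonneg (by linarith) (by linarith)
    linarith
  have ht' : 0 < 1 - t := by linarith
  set G := w1 / (1 - t) with hG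
  have G0 : 0 < G := by positivity
  have hZ : (r - u) * w1 * dl / (1 - t) = (r - u) * dl * G := by rw [hG]; ring
  rw [hZ] at hWe
  have Z0 : 0 ≤ (r - u) * dl * G := by positivity
  have X0 : 0 ≤ u / (1 - a) := by positivity
  set X := u / (1 - a) with hX
  have hTX : 0 ≤ T * X := by positivity
  have hYA : T * X + (r - u) * dl * G < A := by linarith
  have hX1 : X ≤ 1028 / 10000 := by
    by_contra h
    push Not at h
    have : (365 / 1000 : ℝ) * (1028 / 10000) ≤ T * X :=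
      mul_le_mul T0 h.le (by norm_num) hT0.le
    norm_num at this
    linarith
  have huX : u ≤ X := by
    rw [hX, le_div_iff₀ ha']
    have : u * a ≥ 0 := by positivity
    linarith
  have hu1 : u ≤ 1028 / 10000 := by linarith
  have hW1 : (3275 / 10000 : ℝ) ≤ W := by linarith
  have hwW : W ≤ w1 := by
    rw [hW]
    have : 0 ≤ w1 * q := by positivity
    linarith
  have hpow := w1n_pow hk a0 ha1 hT hpp' u0 hT0 hX1
  set P1 := (1 - pp) ^ (k - 1) with hP1
  have pp1 : pp ≤ 1 / k := by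
    rw [le_div_iff₀ hk0]
    linarith
  have hk6 : (1 : ℝ) / k ≤ 1 / 6 := one_div_le_one_div_of_le (by norm_num) hkR
  have hpp0 : 0 < 1 - pp := by linarith
  have P10 : 0 ≤ P1 := by positivity
  have hGW : G * (1 - t - a) = W := by
    have : (1 - t) * (1 - q) = 1 - t - a := by rw [← hq]; ring
    rw [← this, hG, hW]
    field_simp
  have hta : 0 < 1 - t - a := by linarith
  have hPG : P1 ≤ 16 / 10 * (r - u) * G := by
    have h1 : P1 * (1 - t - a) ≤ P1 * (1 - a) := mul_le_mul_of_nonneg_left (by linarith) P10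
    have h2 : T ≤ W + A := by linarith
    have h3 : 1115 / 1000 * T ≤ 16 / 10 * (8172 / 10000) * W := by linarith
    have h4 : 16 / 10 * (8172 / 10000) * W ≤ 16 / 10 * (r - u) * W :=
      mul_le_mul_of_nonneg_right (by linarith) W0.le
    have h5 : P1 * (1 - t - a) ≤ (16 / 10 * (r - u) * G) * (1 - t - a) := by
      calc P1 * (1 - t - a) ≤ 16 / 10 * (r - u) * W := by linarith
        _ = (16 / 10 * (r - u) * G) * (1 - t - a) := by rw [← hGW]; ring
    exact le_of_mul_le_mul_right h5 hta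
  have hdl1 : dl ≤ 1402 / 10000 := by
    by_contra h
    push Not at h
    have hGw : w1 ≤ G := by
      rw [hG, le_div_iff₀ ht']
      have : 0 ≤ w1 * t := by positivity
      linarith
    have h1 : (8172 / 10000 : ℝ) * (1402 / 10000) ≤ (r - u) * dl :=
      mul_le_mul (by linarith) h.le (by norm_num) ru
    have h2 : (8172 / 10000 : ℝ) * (1402 / 10000) * (3275 / 10000) ≤ (r - u) * dl * G :=
      mul_le_mul h1 (by linarith) (by norm_num) (by positivity)
    norm_num at h2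
    linarith
  have hPu : P1 * u ≤ 16 / 10 * (T * X) := by
    have e : u = X * (1 - a) := by rw [hX]; field_simp
    calc P1 * u = P1 * (1 - a) * X := by rw [e]; ring
      _ ≤ 1115 / 1000 * T * X := mul_le_mul_of_nonneg_right hpow X0
      _ ≤ 16 / 10 * (T * X) := by linarith
  have hms' : ms ≤ t + dl + u := by
    rw [hmse]
    have : (r - u) * (t + dl) ≤ 1 * (t + dl) := mul_le_mul_of_nonneg_right (by linarith) (by linarith)
    linarith
  have hmain' : s * P1 - ms * P1 + (1 - b - s) * A / ms ≤ s * (G * (s - t)) := by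
    have hk2 : k - 1 = (k - 2) + 1 := by omega
    have h1 : (1 - 1 / k) * ms * (1 - pp) ^ (k - 2) ≤ ms * P1 := by
      have e : P1 = (1 - pp) ^ (k - 2) * (1 - pp) := by rw [hP1, hk2, pow_succ]
      rw [e]
      have h2 : 0 ≤ ms * (1 - pp) ^ (k - 2) := by positivity
      calc (1 - 1 / k) * ms * (1 - pp) ^ (k - 2) = ms * (1 - pp) ^ (k - 2) * (1 - 1 / k) := by ring
        _ ≤ ms * (1 - pp) ^ (k - 2) * (1 - pp) := mul_le_mul_of_nonneg_left (by linarith) h2
        _ = _ := by ring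
    have h3 : w1 * (s - t) / (1 - t) = G * (s - t) := by rw [hG]; ring
    rw [h3] at hmain
    linarith
  exact w1n_fin (by linarith) (by linarith) u0 t0 t1 dl0 hdl1 G0.le m0 m1 b1 ts sd (by linarith) P10
    hms' hPu hPG hYA hmain' (by field_simp)

end Pool.Agent.Q102.EM
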